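import Mathlib
import Pool.Agent.H54.Hasse
import Pool.Agent.H54.Circ

namespace Pool.Agent.Results.MP_72abcc_nt.Square

open Finset Polynomial Pool.Agent.H54.Hasse Pool.Agent.H54.Circ

/-- the determinant `{c,d}_n`: rows and columns are indexed by `j + 2`, `k + 2` in `{2, ..., n - 2}` -/
def D (c d : ℤ) (n : ℕ) : ℤ :=
  Matrix.det (Matrix.of fun j k : Fin (n - 3) =>
    jacobiSym ((((j : ℕ) : ℤ) + 2) ^ 2 + c * (((j : ℕ) : ℤ) + 2) * (((k : ℕ) : ℤ) + 2) + d * (((k : ℕ) : ℤ) + 2) ^ 2) n)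

def q (c d j k : ℤ) : ℤ := j ^ 2 + c * j * k + d * k ^ 2

lemma ker (c d : ℤ) (m : ℕ) (v : ℕ → ℤ) (h0 : v 0 = 0) (h1 : v 1 = 0) (h2 : v (m + 2) = 0)
    (h3 : ∃ k < m + 3, v k ≠ 0)
    (h4 : ∀ j : ℕ, 2 ≤ j → j < m + 2 → ∑ k ∈ range (m + 3), jacobiSym (q c d j k) (m + 3) * v k = 0) :
    D c d (m + 3) = 0 := by
  unfold D
  rw [← Matrix.exists_mulVec_eq_zero_iff]
  refine ⟨fun k => v (k + 2), ?_, ?_⟩
  · obtain ⟨k, hk, hv⟩ := h3
    have k0 : k ≠ 0 := by rintro rfl; exact hv h0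
    have k1 : k ≠ 1 := by rintro rfl; exact hv h1
    have k2 : k ≠ m + 2 := by rintro rfl; exact hv h2
    intro e
    have := congrFun e ⟨k - 2, by omega⟩
    simp only [Pi.zero_apply] at this
    rw [show k - 2 + 2 = k by omega] at this
    exact hv this
  · funext j
    have := h4 (j + 2) (by omega) (by have := j.2; omega)
    rw [sum_range_succ, sum_range_succ', sum_range_succ', h0, zero_add 1, h1, h2] at this
    simp only [mul_zero, add_zero] at this
    rw [Finset.sum_range] at this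
    simp only [Matrix.mulVec, dotProduct, Matrix.of_apply, Pi.zero_apply]
    rw [← this]
    refine Finset.sum_congr rfl (fun k _ => ?_)
    simp only [q]; push_cast; congr 2

lemma sum_zm {p : ℕ} [Fact p.Prime] (g : ZMod p → ZMod p) : ∑ t ∈ range p, g (t : ZMod p) = ∑ y, g y :=
  Finset.sum_nbij' (fun t => (t : ZMod p)) (fun y => y.val) (fun _ _ => by simp) (fun y _ => by simp [ZMod.val_lt])
    (fun t ht => ZMod.val_cast_of_lt (by simpa using ht)) (fun y _ => by simp) (fun _ _ => rfl)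

lemma int_zero {p : ℕ} [Fact p.Prime] (f : ℕ → ℤ) (h0 : f 0 = 0) (h1 : ∀ t, |f t| ≤ 1)
    (h2 : ((∑ t ∈ range p, f t : ℤ) : ZMod p) = 0) : ∑ t ∈ range p, f t = 0 := by
  rw [ZMod.intCast_zmod_eq_zero_iff_dvd] at h2
  refine Int.eq_zero_of_abs_lt_dvd h2 ?_
  obtain ⟨m, rfl⟩ : ∃ m, p = m + 1 := ⟨p - 1, by have := (Fact.out : p.Prime).pos; omega⟩
  rw [sum_range_succ', h0, add_zero]
  refine lt_of_le_of_lt (Finset.abs_sum_le_sum_abs _ _) (lt_of_le_of_lt (Finset.sum_le_sum (fun i _ => h1 (i + 1))) ?_)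
  simp

lemma jabs (a : ℤ) (n : ℕ) : |jacobiSym a n| ≤ 1 := by
  rcases jacobiSym.trichotomy a n with h | h | h <;> rw [h] <;> simp

lemma jabs2 (a b : ℤ) (n : ℕ) : |jacobiSym a n * jacobiSym b n| ≤ 1 := by
  rw [abs_mul]; exact mul_le_one₀ (jabs _ _) (abs_nonneg _) (jabs _ _)

section
variable {p : ℕ} [Fact p.Prime] {h : ℕ}

lemma jc (hp : p = 2 * h + 1) (a : ℤ) : ((jacobiSym a p : ℤ) : ZMod p) = (a : ZMod p) ^ h := by
  rw [← jacobiSym.legendreSym.to_jacobiSym, legendreSym.eq_pow]; congr 1; omega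

lemma L1 (hp : p = 2 * h + 1) (c d : ℤ) (hd : (d : ZMod p) ≠ 0) (hT : T p h (c : ZMod p) d = 0) (j m : ℤ)
    (hm : (m : ZMod p) ≠ 0) : ∑ t ∈ range p, jacobiSym (q c d j (m * t)) p * jacobiSym (m * t) p = 0 := by
  refine int_zero _ (by simp [jacobiSym.zero_left (Fact.out : p.Prime).one_lt]) (fun t => jabs2 _ _ _) ?_
  push_cast
  simp only [jc hp, q]
  push_cast
  rw [sum_zm (fun y : ZMod p => ((j : ZMod p) ^ 2 + (c : ZMod p) * j * ((m : ZMod p) * y) + (d : ZMod p) * ((m : ZMod p) * y) ^ 2) ^ h * ((m : ZMod p) * y) ^ h)]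
  have e := T_u hp ((j : ZMod p) * c) ((j : ZMod p) ^ 2 * d) (d * m)
  rw [T_sc hp, hT, mul_zero, mul_zero] at e
  apply mul_left_cancel₀ (pow_ne_zero h (pow_ne_zero 2 hd))
  rw [mul_zero, ← e, Finset.mul_sum]
  refine Finset.sum_congr rfl (fun y _ => ?_)
  rw [G_ev, ← mul_pow, ← mul_pow]; congr 1; simp; ring

end

lemma comp (c d : ℤ) (n p h m : ℕ) [Fact p.Prime] (hp : p = 2 * h + 1) (hn : n = p * m) (h4 : n % 2 = 1) (m1 : m ≠ 1)
    (hd : (d : ZMod p) ≠ 0) (hT : T p h (c : ZMod p) d = 0) : D c d n = 0 := by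
  have pp : p.Prime := Fact.out
  have p2 := pp.two_le
  have mo : m % 2 = 1 := by
    rcases Nat.even_or_odd' m with ⟨k, rfl | rfl⟩
    · exfalso; have : n = 2 * (p * k) := by rw [hn]; ring
      omega
    · omega
  have m0 : m ≠ 0 := by omega
  have : NeZero m := ⟨m0⟩
  have hpm : p ≤ p * m := Nat.le_mul_of_pos_right _ (by omega)
  obtain ⟨N, hN⟩ : ∃ N, n = N + 3 := ⟨n - 3, by omega⟩
  have m3 : 3 ≤ m := by omega
  have n3 : 3 * m ≤ N + 3 := by rw [← hN, hn]; exact Nat.mul_le_mul_right _ (by omega)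
  have e : N + 3 = p * m := by omega
  rw [hN]
  by_cases hpm : p ∣ m
  · refine ker c d N (fun k => (if k = 2 then 1 else 0) - (if k = 2 + m then 1 else 0)) (by simp; omega) (by simp; omega)
      (by simp; omega) ⟨2, by omega, by simp; omega⟩ (fun j _ _ => ?_)
    simp only [mul_sub, Finset.sum_sub_distrib, mul_ite, mul_one, mul_zero, Finset.sum_ite_eq', Finset.mem_range]
    rw [if_pos (by omega), if_pos (by omega), e, jacobiSym.mul_right, jacobiSym.mul_right]
    have k : q c d j ((2 + m : ℕ) : ℤ) ≡ q c d j ((2 : ℕ) : ℤ) [ZMOD m] :=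
      (Int.modEq_iff_dvd.2 ⟨-(c * j + d * (4 + m)), by simp only [q]; push_cast; ring⟩)
    rw [jacobiSym.mod_left' k, jacobiSym.mod_left' (k.of_dvd (Int.natCast_dvd_natCast.2 hpm)), sub_self]
  · have hm : ((m : ℤ) : ZMod p) ≠ 0 := by rw [Int.cast_natCast, Ne, ZMod.natCast_eq_zero_iff]; exact hpm
    refine ker c d N (fun k => if m ∣ k then jacobiSym k p else 0) (by simp [jacobiSym.zero_left pp.one_lt])
      (by simp [m1]) ?_ ⟨m, by omega, ?_⟩ (fun j _ _ => ?_)
    · rw [if_neg]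
      intro hc
      have : m ∣ N + 2 + 1 := ⟨p, by rw [mul_comm]; omega⟩
      exact m1 (Nat.dvd_one.1 ((Nat.dvd_add_right hc).1 this))
    · simp only [dvd_rfl, if_true]
      intro hc
      have := jc hp m
      rw [hc] at this
      exact pow_ne_zero h hm (by simpa using this.symm)
    · simp only [mul_ite, mul_zero]
      rw [← Finset.sum_filter, e]
      have a1 := L1 hp c d hd hT j m hm
      rw [← mul_zero (jacobiSym (j ^ 2) m), ← a1, Finset.mul_sum]
      symm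
      refine Finset.sum_bij (fun t _ => m * t) (fun t ht => ?_) (fun a _ b _ hab => Nat.eq_of_mul_eq_mul_left (by omega) hab)
        (fun k hk => ?_) (fun t _ => ?_)
      · simp only [mem_filter, mem_range] at *
        exact ⟨by rw [mul_comm p m]; exact Nat.mul_lt_mul_of_pos_left ht (by omega), Dvd.intro _ rfl⟩
      · simp only [mem_filter, mem_range] at hk
        obtain ⟨h1, t, rfl⟩ := hk
        exact ⟨t, by rw [mul_comm p m] at h1; exact mem_range.2 (Nat.lt_of_mul_lt_mul_left h1), rfl⟩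
      · have k : q c d j ((m * t : ℕ) : ℤ) ≡ (j : ℤ) ^ 2 [ZMOD m] :=
          (Int.modEq_iff_dvd.2 ⟨-(c * j * t + d * m * t ^ 2), by simp only [q]; push_cast; ring⟩)
        rw [jacobiSym.mul_right, jacobiSym.mod_left' k]; push_cast; ring

lemma T32 {p h : ℕ} [Fact p.Prime] (hp : p = 2 * h + 1) (ho : Odd h) : T p h (3 : ZMod p) 2 = 0 := by
  have e1 : T p h (3 : ZMod p) 2 = T p h 0 (-1) := T_tr hp _ _ (-1) _ _ (fun x => by ring)
  have e2 := T_sc hp (0 : ZMod p) (-1) (-1)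
  rw [ho.neg_one_pow] at e2
  simp only [mul_zero, even_two, Even.neg_pow, one_pow, one_mul] at e2
  have n2 : (2 : ZMod p) ≠ 0 := by
    have : ((2 : ℕ) : ZMod p) ≠ 0 := by
      rw [Ne, ZMod.natCast_eq_zero_iff]; exact Nat.not_dvd_of_pos_of_lt (by omega) (by obtain ⟨k, rfl⟩ := ho; omega)
    exact_mod_cast this
  rw [e1]
  exact mul_left_cancel₀ n2 (by linear_combination e2)

lemma grp (p : ℕ) [Fact p.Prime] : ∃ (G : Type) (_ : CommGroup G) (_ : Fintype G) (_ : DecidableEq G) (_ : IsCyclic G)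
    (v : G → ZMod p), Function.Injective v ∧ (∀ g, v g ≠ 0) ∧ (∀ a b, v (a * b) = v a * v b) ∧
    (∀ a b, v (a / b) = v a / v b) ∧ (∀ a, v a⁻¹ = (v a)⁻¹) ∧ v 1 = 1 ∧ (∀ g, IsSquare (v g)) ∧
    ∀ x, x ≠ 0 → IsSquare x → ∃ g, v g = x := by
  classical
  refine ⟨Subgroup.square (ZMod p)ˣ, inferInstance, inferInstance, inferInstance, inferInstance,
    fun g => ((g : (ZMod p)ˣ) : ZMod p), fun a b e => Subtype.ext (Units.ext e), fun g => Units.ne_zero _,
    fun a b => rfl, fun a b => ?_, fun a => ?_, rfl, ?_, ?_⟩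
  · beta_reduce; rw [Subgroup.coe_div, Units.val_div_eq_div_val]
  · beta_reduce; rw [Subgroup.coe_inv, Units.val_inv_eq_inv_val]
  · rintro ⟨a, b, rfl⟩; exact ⟨b, rfl⟩
  · rintro x x0 ⟨y, rfl⟩
    have y0 : y ≠ 0 := by rintro rfl; simp at x0
    exact ⟨⟨Units.mk0 y y0 * Units.mk0 y y0, _, rfl⟩, rfl⟩

lemma prime (p : ℕ) [Fact p.Prime] (h8 : p % 8 = 3) : ∃ x : ℤ, 2 * D 3 2 p = ((p : ℤ) - 1) * x ^ 2 := by
  have pp : p.Prime := Fact.out
  have n1 : ¬IsSquare (-1 : ZMod p) := by rw [ZMod.exists_sq_eq_neg_one_iff]; omega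
  obtain ⟨G, _, _, _, _, v, vi, v0, vm, vd, vv, v1, vs', vr'⟩ := grp p
  obtain ⟨χ, cm, c0, c1, c2, c3, c4, c5⟩ : ∃ χ : ZMod p → ℤ, (∀ a b, χ (a * b) = χ a * χ b) ∧ χ 0 = 0 ∧ χ (-1) = -1 ∧
      (∀ a, a ≠ 0 → χ (a ^ 2) = 1) ∧ (∀ a, a ≠ 0 → (χ a = 1 ↔ IsSquare a)) ∧ (∀ a, a ≠ 0 → χ a = 1 ∨ χ a = -1) ∧
      ∀ a : ℤ, jacobiSym a p = χ a :=
    ⟨quadraticChar (ZMod p), map_mul _, by simp, quadraticChar_neg_one_iff_not_isSquare.2 n1,
      fun _ => quadraticChar_sq_one', fun _ => quadraticChar_one_iff_isSquare, fun _ => quadraticChar_dichotomy,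
      fun a => by rw [← jacobiSym.legendreSym.to_jacobiSym, legendreSym]⟩
  have cn : ∀ x, χ (-x) = -χ x := fun x => by rw [neg_eq_neg_one_mul, cm, c1]; ring
  have vs : ∀ g, χ (v g) = 1 := fun g => (c3 _ (v0 g)).2 (vs' g)
  have vr : ∀ x, χ x = 1 → ∃ g, v g = x := fun x hx => by
    have x0 : x ≠ 0 := by rintro rfl; omega
    exact vr' x x0 ((c3 x x0).1 hx)
  have vn : ∀ a b, v a ≠ -v b := fun a b e => by
    have := vs a
    rw [e, cn, vs] at this; omega
  have vc : ∀ x, x ≠ 0 → ∃ g, x = v g ∨ x = -v g := fun x hx => by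
    rcases c4 x hx with h | h
    · obtain ⟨g, rfl⟩ := vr x h; exact ⟨g, .inl rfl⟩
    · obtain ⟨g, hg⟩ := vr (-x) (by rw [cn]; linarith); exact ⟨g, .inr (by rw [hg, neg_neg])⟩
  have h2 : ∀ g : G, g * g = 1 → g = 1 := fun g hg => by
    have := vm g g
    rw [hg, v1] at this
    rcases mul_self_eq_one_iff.1 this.symm with h | h
    · exact vi (h.trans v1.symm)
    · exact absurd (by rw [v1]; exact h) (vn g 1)
  have inj : ∀ {ι : Type} (w : ι → G), Function.Injective w →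
      Function.Injective (Sum.elim (fun i => v (w i)) (fun i => -v (w i))) := fun w hw => by
    rintro (a | a) (b | b) e <;> simp only [Sum.elim_inl, Sum.elim_inr] at e
    · rw [hw (vi e)]
    · exact absurd e (vn _ _)
    · exact absurd e.symm (vn _ _)
    · rw [hw (vi (neg_injective e))]
  have sp : ∀ F : ZMod p → ℤ, ∑ x, F x = F 0 + ∑ g, (F (v g) + F (-v g)) := fun F => by
    rw [sum_split 0 _ (inj id Function.injective_id) (fun x => ⟨?_, fun hx => ?_⟩), Fintype.sum_sum_type,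
      Finset.sum_add_distrib]
    · rfl
    · rintro ⟨a | a, rfl⟩ <;> simp [v0]
    · obtain ⟨g, rfl | rfl⟩ := vc x hx
      · exact ⟨.inl g, rfl⟩
      · exact ⟨.inr g, rfl⟩
  have cd : (p : ℤ) - 1 = 2 * Fintype.card G := by
    have := sp (fun _ => 1)
    simp [ZMod.card] at this
    omega
  obtain ⟨r, hr⟩ : ∃ r : G, v r * v r = -2 := by
    obtain ⟨y, hy⟩ := (ZMod.exists_sq_eq_neg_two_iff (p := p) (by omega)).2 (.inr h8)
    have y0 : y ≠ 0 := by
      rintro rfl
      have : ((2 : ℕ) : ZMod p) = 0 := by push_cast; linear_combination -hy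
      rw [ZMod.natCast_eq_zero_iff] at this
      have := Nat.le_of_dvd (by omega) this
      omega
    obtain ⟨g, rfl | rfl⟩ := vc y y0
    · exact ⟨g, hy.symm⟩
    · exact ⟨g, by linear_combination -hy⟩
  let f : ZMod p → ℤ := fun x => χ (x ^ 2 + 3 * x + 2)
  have fs : ∀ x : ZMod p, x ≠ 0 → f (v r * x⁻¹) = -f (-(v r * x)) := fun x hx => by
    simp only [f]
    rw [← cn, ← mul_one (χ _), ← c2 x hx, ← cm]
    congr 1; field_simp; linear_combination (1 + x ^ 2) * hr
  let e : G → ℤ := fun g => f (v g) + f (-v g)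
  let o : G → ℤ := fun g => f (v g) - f (-v g)
  have fs2 : ∀ x : G, f (v (r * x⁻¹)) = -f (-v (r * x)) ∧ f (-v (r * x⁻¹)) = -f (v (r * x)) := fun x => by
    rw [vm, vm, vv]
    refine ⟨fs _ (v0 x), ?_⟩
    have := fs (-v x) (neg_ne_zero.2 (v0 x))
    simpa [inv_neg] using this
  have es : ∀ x : G, e (r * x⁻¹) = -e (r * x) := fun x => by simp only [e, (fs2 x).1, (fs2 x).2]; ring
  have os : ∀ x : G, o (r * x⁻¹) = o (r * x) := fun x => by simp only [o, (fs2 x).1, (fs2 x).2]; ring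
  have e0 : ∑ x, e (r * x) = 0 := by
    have := Fintype.sum_equiv (Equiv.inv G) (fun x => e (r * x⁻¹)) (fun x => e (r * x)) (fun _ => rfl)
    simp only [es, Finset.sum_neg_distrib] at this
    omega
  have o0 : ∑ x, o (r * x) = 0 := by
    rw [Fintype.sum_equiv (Equiv.mulLeft r) (fun x => o (r * x)) o (fun _ => rfl)]
    have a1 := sp (fun x => χ x * f x)
    have a2 := Fintype.sum_equiv (Equiv.subLeft (-2 : ZMod p)) (fun x => -(χ x * f x)) (fun x => χ x * f x) (fun x => by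
      simp only [f, ← cm, ← cn, Equiv.subLeft_apply]; congr 1; ring)
    simp only [cn, vs, Finset.sum_neg_distrib, c0, one_mul, zero_mul, zero_add, neg_mul, ← sub_eq_add_neg] at a1 a2
    simp only [o]
    omega
  obtain ⟨y1, k1⟩ := skew h2 (fun x => e (r * x)) es
  obtain ⟨y2, k2⟩ := symm h2 (fun x => o (r * x)) os o0
  have hD : D 3 2 p = c e * c o := by
    have a1 := det_eq (fun j : Fin (p - 3) => (((j : ℕ) + 2 : ℕ) : ZMod p)) _ (fun a b hab => by
      have := congrArg ZMod.val hab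
      rw [ZMod.val_cast_of_lt (by have := a.2; omega), ZMod.val_cast_of_lt (by have := b.2; omega)] at this
      exact Fin.ext (by omega)) (inj (Subtype.val : {g : G // g ≠ 1} → G) Subtype.val_injective) (by
      have b1 : ∀ x : ZMod p, x ∈ Set.range (fun j : Fin (p - 3) => (((j : ℕ) + 2 : ℕ) : ZMod p)) ↔
          x ≠ 0 ∧ x ≠ 1 ∧ x ≠ -1 := fun x => by
        have z0 : ∀ k : ℕ, 0 < k → k < p → (k : ZMod p) ≠ 0 := fun k k1 k2 => by
          rw [Ne, ZMod.natCast_eq_zero_iff]; exact Nat.not_dvd_of_pos_of_lt k1 k2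
        constructor
        · rintro ⟨j, rfl⟩
          have := j.2
          refine ⟨z0 _ (by omega) (by omega), fun h => z0 (j + 1) (by omega) (by omega) ?_,
            fun h => z0 (j + 3) (by omega) (by omega) ?_⟩
          · push_cast at h ⊢; linear_combination h
          · push_cast at h ⊢; linear_combination h
        · rintro ⟨x0, x1, x2⟩
          have := ZMod.val_lt x
          have d0 : x.val ≠ 0 := fun h => x0 (by rw [← ZMod.natCast_zmod_val x, h]; simp)
          have d1 : x.val ≠ 1 := fun h => x1 (by rw [← ZMod.natCast_zmod_val x, h]; simp)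
          have d2 : x.val + 1 ≠ p := fun h => x2 (by
            have := congrArg (Nat.cast (R := ZMod p)) h
            push_cast at this
            rw [ZMod.natCast_zmod_val, ZMod.natCast_self] at this; linear_combination this)
          refine ⟨⟨x.val - 2, by omega⟩, ?_⟩
          simp only
          rw [show x.val - 2 + 2 = x.val by omega, ZMod.natCast_zmod_val]
      ext x; rw [b1]
      constructor
      · rintro ⟨x0, x1, x2⟩
        obtain ⟨g, rfl | rfl⟩ := vc x x0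
        · exact ⟨.inl ⟨g, by rintro rfl; exact x1 v1⟩, rfl⟩
        · exact ⟨.inr ⟨g, by rintro rfl; exact x2 (by rw [v1])⟩, rfl⟩
      · rintro ⟨a | a, rfl⟩ <;> simp only [Sum.elim_inl, Sum.elim_inr]
        · rw [← v1]; exact ⟨v0 _, fun h => a.2 (vi h), vn _ 1⟩
        · rw [← v1]; exact ⟨neg_ne_zero.2 (v0 _), fun h => vn 1 _ h.symm, fun h => a.2 (vi (neg_injective h))⟩)
      (fun x y => χ (x ^ 2 + 3 * x * y + 2 * y ^ 2))
    have a2 : ∀ x y : ZMod p, y ≠ 0 → χ (x ^ 2 + 3 * x * y + 2 * y ^ 2) = f (x / y) := fun x y hy => by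
      simp only [f]
      rw [← mul_one (χ ((x / y) ^ 2 + _ + _)), ← c2 y hy, ← cm]
      congr 1; field_simp
    refine Eq.trans ?_ (a1.trans ?_)
    · rw [D]; congr 1; ext j k
      simp only [Matrix.of_apply]
      rw [c5]; congr 1; push_cast; ring
    · rw [show c e * c o = _ from (blk (Matrix.of fun j k : {g : G // g ≠ 1} => f (v (j.1 / k.1)))
        (Matrix.of fun j k : {g : G // g ≠ 1} => f (-v (j.1 / k.1)))).symm]
      congr 1
      ext (i | i) (j | j) <;> simp only [Matrix.of_apply, Sum.elim_inl, Sum.elim_inr, Matrix.fromBlocks_apply₁₁,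
        Matrix.fromBlocks_apply₁₂, Matrix.fromBlocks_apply₂₁, Matrix.fromBlocks_apply₂₂, vd]
      · exact a2 _ _ (v0 _)
      · rw [a2 _ _ (neg_ne_zero.2 (v0 _)), div_neg]
      · rw [a2 _ _ (v0 _), neg_div]
      · rw [a2 _ _ (neg_ne_zero.2 (v0 _)), neg_div_neg_eq]
  refine ⟨y1 * y2, ?_⟩
  rw [hD, c_shift e r e0, c_shift o r o0, k1, k2, cd]
  linear_combination (2 * y1 ^ 2 * y2 ^ 2 * Fintype.card G) * W_sq r

theorem result : ∀ n : ℕ, n % 8 = 3 → ∃ x : ℤ, 2 * D 3 2 n = (Nat.totient n : ℤ) * x ^ 2 := by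
  intro n h8
  obtain ⟨p, pp, ⟨m, hm⟩, h3⟩ : ∃ p, p.Prime ∧ p ∣ n ∧ p % 4 = 3 := by
    by_contra hc
    push Not at hc
    have k : ∀ m : ℕ, m ∣ n → m % 4 = 1 := fun m => by
      induction m using Nat.recOnMul with
      | zero => intro h; rw [Nat.eq_zero_of_zero_dvd h] at h8; omega
      | one => simp
      | prime q hq =>
        intro h
        have := hc q hq h
        rcases hq.eq_two_or_odd with rfl | e <;> omega
      | mul a b ha hb =>
        intro h
        rw [Nat.mul_mod, ha (Dvd.dvd.trans (Dvd.intro _ rfl) h), hb (Dvd.dvd.trans (Dvd.intro_left _ rfl) h)]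
    have := k n dvd_rfl
    omega
  have : Fact p.Prime := ⟨pp⟩
  by_cases m1 : m = 1
  · subst m1
    rw [mul_one] at hm; subst hm
    rw [Nat.totient_prime pp, Nat.cast_sub pp.one_le]
    exact prime n h8
  · refine ⟨0, ?_⟩
    have hp : p = 2 * (p / 2) + 1 := by omega
    rw [comp 3 2 n p (p / 2) m hp hm (by omega) m1 ?_ (by simpa using T32 hp (Nat.odd_iff.2 (by omega)))]
    · simp
    · rw [show ((2 : ℤ) : ZMod p) = ((2 : ℕ) : ZMod p) by simp, Ne, ZMod.natCast_eq_zero_iff]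
      exact Nat.not_dvd_of_pos_of_lt (by omega) (by omega)

end Pool.Agent.Results.MP_72abcc_nt.Square
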